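import Pool.Agent.Helper17.OD.GoalsGE

/-!
# Packet SV2 of the project OD: the extension has no new sequences
-/

namespace Pool.Agent.Helper17.OD.PkSV2

open Set

/-- The order on the conditions of full length. -/
def LL (F : FD) (q p : T) : Prop := q ∈ F.P F.κ ∧ p ∈ F.P F.κ ∧ F.Le F.κ q p

/-- The condition `p` decides that `z` is in the evaluation of `X`. -/
def Dv (F : FD) (X : Set T) (z p : T) : Prop := ∃ u ∈ D (Iio F.γ), LL F p u ∧ Tr.pr z u ∈ X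

/-- Natural numbers. -/
def IsN (t : T) : Prop := ∃ n : ℕ, t = .nat n

/-- Successors of natural numbers. -/
def Sc (s t : T) : Prop := ∃ n : ℕ, s = .nat n ∧ t = .nat (n + 1)

section
variable {F : FD}

theorem kg_D : D (Iio F.κ) ⊆ D (Iio F.γ) := D_mono (Iio_subset_Iio F.g.kg.le)

theorem sd_LL (hPIM : G_PIM) (hPBD : G_PBD) :
    SD F.γ F.M F.M (fun e _ => LL F e.fst e.snd) := by
  have hM : SOM F.γ F.M F.M := F.g.m1
  have h1 : SD F.γ F.M F.M (fun e _ => ∃ j ≤ F.κ, (Tr.ord F.κ : T) = .ord j ∧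
      e.fst ∈ D (Iio F.κ) ∧ e.snd ∈ D (Iio F.κ) ∧ F.Le j e.fst e.snd) :=
    (hPIM F).2.1.sub (t := fun e => .pr (.ord F.κ) (.pr e.fst e.snd))
      ((ST.ordc F.g.kg).pr ((ST.id.fst).pr (ST.id.snd)))
  have h2 : SD F.γ F.M F.M (fun e _ => e.fst ∈ F.P F.κ) :=
    SD.mem (ST.id.fst) (SV.par ((hPIM F).2.2 F.κ le_rfl))
  have h3 : SD F.γ F.M F.M (fun e _ => e.snd ∈ F.P F.κ) :=
    SD.mem (ST.id.snd) (SV.par ((hPIM F).2.2 F.κ le_rfl))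
  refine ((h2.and h3).and h1).congr fun e _ _ _ => ?_
  constructor
  · rintro ⟨⟨h4, h5⟩, j, _, h6, _, _, h7⟩
    rw [Tr.ord.injEq] at h6
    subst h6
    exact ⟨h4, h5, h7⟩
  · rintro ⟨h4, h5, h6⟩
    exact ⟨⟨h4, h5⟩, F.κ, le_rfl, rfl, (hPBD F).2.1 _ h4, (hPBD F).2.1 _ h5, h6⟩

theorem sd_Dv (hPIM : G_PIM) (hPBD : G_PBD) {X : Set T} (hX : X ∈ F.M) :
    SD F.γ F.M F.M (fun e _ => Dv F X e.fst e.snd) := by
  have hM : SOM F.γ F.M F.M := F.g.m1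
  have h1 := sd_LL (F := F) hPIM hPBD
  exact SD.exT (P := fun e u _ => LL F e.snd u ∧ Tr.pr e.fst u ∈ X)
    ((SD.app2 h1 (ST.id.snd.snd) (ST.id.fst)).and
      (SD.mem ((ST.id.snd.fst).pr ST.id.fst) (SV.par hX)))

theorem LL_trans (hPRO : G_PRO) {p q r : T} (h1 : LL F r q) (h2 : LL F q p) : LL F r p :=
  ⟨h1.1, h2.2.1, (hPRO F).2.1 _ _ _ _ h1.2.2 h2.2.2⟩

theorem LL_refl (hPRO : G_PRO) {p : T} (h : p ∈ F.P F.κ) : LL F p p := ⟨h, h, (hPRO F).1 _ _⟩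

theorem Dv_mono (hPRO : G_PRO) {X : Set T} {z p q : T} (h1 : LL F q p) (h2 : Dv F X z p) :
    Dv F X z q := by
  obtain ⟨u, hu, h3, h4⟩ := h2
  exact ⟨u, hu, LL_trans hPRO h1 h3, h4⟩

/-- The dense set. -/
def E (F : FD) (X : Set T) : Set T := {p | p ∈ D (Iio F.κ) ∧ (p ∈ F.P F.κ ∧
  ((∃ n ∈ D (Iio F.γ), IsN n ∧ ∀ q ∈ D (Iio F.γ), LL F q p →
    ∀ y ∈ D (Iio F.γ), ¬ Dv F X (.pr n y) q) ∨
  ∀ n ∈ D (Iio F.γ), IsN n → ∃ y ∈ D (Iio F.γ), Dv F X (.pr n y) p))}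

theorem E_mem (hPIM : G_PIM) (hPBD : G_PBD) (hTRE : G_TRE) {X : Set T} (hX : X ∈ F.M) :
    E F X ∈ F.M := by
  have hM : SOM F.γ F.M F.M := F.g.m1
  have h1 := sd_LL (F := F) hPIM hPBD
  have h2 := sd_Dv hPIM hPBD hX
  have h3 : SD F.γ F.M F.M (fun e _ => IsN e) := (hTRE F.γ F.M F.M F.g.m1).2.2.2.2.2.2.2.1
  have h4 : SD F.γ F.M F.M (fun e _ => e ∈ F.P F.κ) :=
    SD.mem ST.id (SV.par ((hPIM F).2.2 F.κ le_rfl))
  refine SOM.sep (S := F.M) (P := fun p => p ∈ F.P F.κ ∧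
    ((∃ n ∈ D (Iio F.γ), IsN n ∧ ∀ q ∈ D (Iio F.γ), LL F q p →
      ∀ y ∈ D (Iio F.γ), ¬ Dv F X (.pr n y) q) ∨
    ∀ n ∈ D (Iio F.γ), IsN n → ∃ y ∈ D (Iio F.γ), Dv F X (.pr n y) p)) ?_ F.g.kg
  refine h4.and (SD.or ?_ ?_)
  · refine SD.exT (P := fun p n _ => IsN n ∧ ∀ q ∈ D (Iio F.γ), LL F q p →
      ∀ y ∈ D (Iio F.γ), ¬ Dv F X (.pr n y) q) ?_
    refine SD.and (h3.sub ST.id.fst) ?_
    refine SD.allT (P := fun e q _ => LL F q e.snd → ∀ y ∈ D (Iio F.γ),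
      ¬ Dv F X (.pr e.fst y) q) ?_
    refine SD.imp (SD.app2 h1 ST.id.fst ST.id.snd.snd) ?_
    refine SD.allT (P := fun e y _ => ¬ Dv F X (.pr e.snd.fst y) e.fst) ?_
    exact (SD.app2 h2 ((ST.id.snd.snd.fst).pr ST.id.fst) ST.id.snd.fst).not
  · refine SD.allT (P := fun p n _ => IsN n → ∃ y ∈ D (Iio F.γ), Dv F X (.pr n y) p) ?_
    refine SD.imp (h3.sub ST.id.fst) ?_
    refine SD.exT (P := fun e y _ => Dv F X (.pr e.fst y) e.snd) ?_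
    exact SD.app2 h2 ((ST.id.snd.fst).pr ST.id.fst) ST.id.snd.snd

theorem E_dense (hPIM : G_PIM) (hPBD : G_PBD) (hTRE : G_TRE) (hPRO : G_PRO) (hDCH : G_DCH)
    (hCCL : G_CCL) {X : Set T} (hX : X ∈ F.M) (p : T) (hp : p ∈ F.P F.κ) :
    ∃ q ∈ E F X, F.Le F.κ q p := by
  have hM : SOM F.γ F.M F.M := F.g.m1
  have h1 := sd_LL (F := F) hPIM hPBD
  have h2 := sd_Dv hPIM hPBD hX
  have h3 : SD F.γ F.M F.M (fun e _ => IsN e) := (hTRE F.γ F.M F.M F.g.m1).2.2.2.2.2.2.2.1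
  have h3' : SD F.γ F.M F.M (fun e _ => Sc e.fst e.snd) :=
    (hTRE F.γ F.M F.M F.g.m1).2.2.2.2.2.2.2.2.1
  have hPD : F.P F.κ ⊆ D (Iio F.κ) := (hPBD F).2.1 F.κ
  by_cases hc : ∃ q, LL F q p ∧ ∃ n ∈ D (Iio F.γ), IsN n ∧ ∀ r ∈ D (Iio F.γ), LL F r q →
    ∀ y ∈ D (Iio F.γ), ¬ Dv F X (.pr n y) r
  · obtain ⟨q, hq, hn⟩ := hc
    exact ⟨q, ⟨hPD hq.1, hq.1, Or.inl hn⟩, hq.2.2⟩
  · have hnat : ∀ n : ℕ, (Tr.nat n : T) ∈ D (Iio F.γ) := fun n => nat_mem n _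
    have hstep : ∀ q, LL F q p → ∀ n : ℕ, ∃ r, LL F r q ∧ ∃ y ∈ D (Iio F.γ),
        Dv F X (.pr (.nat n) y) r := by
      intro q hq n
      by_contra hcon
      exact hc ⟨q, hq, .nat n, hnat n, ⟨n, rfl⟩, fun r _ hr y hy hd => hcon ⟨r, hr, y, hy, hd⟩⟩
    -- the sequence
    let Y : Set T := {z | z ∈ D (Iio F.κ) ∧ (IsN z.fst ∧ z = .pr z.fst z.snd ∧ LL F z.snd p)}
    let R : Set T := {z | z ∈ D (Iio F.κ) ∧ (z = .pr z.fst z.snd ∧ Sc z.snd.fst z.fst.fst ∧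
      LL F z.fst.snd z.snd.snd ∧ ∃ y ∈ D (Iio F.γ), Dv F X (.pr z.snd.fst y) z.fst.snd)}
    have hY : Y ∈ F.M := by
      refine SOM.sep (S := F.M) (P := fun z => IsN z.fst ∧ z = .pr z.fst z.snd ∧ LL F z.snd p) ?_ F.g.kg
      exact (h3.sub ST.id.fst).and ((SD.eq ST.id (ST.id.fst.pr ST.id.snd)).and
        (SD.app2 h1 ST.id.snd (ST.const (kg_D (hPD hp)))))
    have hR : R ∈ F.M := by
      refine SOM.sep (S := F.M) (P := fun z => z = .pr z.fst z.snd ∧ Sc z.snd.fst z.fst.fst ∧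
        LL F z.fst.snd z.snd.snd ∧ ∃ y ∈ D (Iio F.γ), Dv F X (.pr z.snd.fst y) z.fst.snd) ?_
        F.g.kg
      refine (SD.eq ST.id (ST.id.fst.pr ST.id.snd)).and
        ((SD.app2 h3' ST.id.snd.fst ST.id.fst.fst).and
          ((SD.app2 h1 ST.id.fst.snd ST.id.snd.snd).and ?_))
      refine SD.exT (P := fun e y _ => Dv F X (.pr e.snd.fst y) e.fst.snd) ?_
      exact SD.app2 h2 ((ST.id.snd.snd.fst).pr ST.id.fst) ST.id.snd.fst.snd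
    have hy0 : Tr.pr (.nat 0) p ∈ Y :=
      ⟨pr_mem.2 ⟨nat_mem _ _, hPD hp⟩, ⟨0, rfl⟩, rfl, LL_refl hPRO hp⟩
    obtain ⟨s, hs0, hsY, hsR, hsq⟩ := hDCH F.γ F.M F.M F.g.m1 R hR Y hY (by
      rintro y ⟨hyD, ⟨n, hn⟩, hys, hyL⟩
      obtain ⟨r, hr, v, hv, hd⟩ := hstep _ hyL n
      refine ⟨.pr (.nat (n + 1)) r, ⟨pr_mem.2 ⟨nat_mem _ _, hPD hr.1⟩, ⟨n + 1, rfl⟩, rfl,
        LL_trans hPRO hr hyL⟩, pr_mem.2 ⟨pr_mem.2 ⟨nat_mem _ _, hPD hr.1⟩, hyD⟩, rfl,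
        ⟨n, hn, rfl⟩, hr, v, hv, ?_⟩
      show Dv F X (.pr y.fst v) r
      rw [hn]
      exact hd) _ hy0
    have hfst : ∀ n, (s n).fst = .nat n := by
      intro n
      induction n with
      | zero => rw [hs0]; rfl
      | succ n ih =>
        obtain ⟨_, _, ⟨m, hm1, hm2⟩, _⟩ := hsR n
        change (s n).fst = _ at hm1
        change (s (n + 1)).fst = _ at hm2
        rw [ih, Tr.nat.injEq] at hm1
        rw [hm2, hm1]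
    have hLn : ∀ n, LL F (s (n + 1)).snd (s n).snd := fun n => (hsR n).2.2.2.1
    have hDn : ∀ n, ∃ y ∈ D (Iio F.γ), Dv F X (.pr (.nat n) y) (s (n + 1)).snd := by
      intro n
      obtain ⟨y, hy, hd⟩ := (hsR n).2.2.2.2
      refine ⟨y, hy, ?_⟩
      change Dv F X (.pr (s n).fst y) (s (n + 1)).snd at hd
      rw [hfst n] at hd
      exact hd
    have hsq' : sq (fun n => (s n).snd) ∈ F.M := by
      refine SOM.of_SD (S := F.M) (d := F.κ) F.g.kg ?_ ?_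
      · rintro z ⟨n, rfl⟩
        exact pr_mem.2 ⟨nat_mem _ _, hPD (hsY n).2.2.2.1⟩
      · have h5 : SD F.γ F.M F.M (fun e _ => e = .pr e.fst e.snd ∧ ∃ w ∈ D (Iio F.γ),
            Tr.pr e.fst w ∈ sq s ∧ e.snd = w.snd) := by
          refine (SD.eq ST.id (ST.id.fst.pr ST.id.snd)).and ?_
          refine SD.exT (P := fun e w _ => Tr.pr e.fst w ∈ sq s ∧ e.snd = w.snd) ?_
          exact (SD.mem (ST.id.snd.fst.pr ST.id.fst) (SV.par hsq)).and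
            (SD.eq ST.id.snd.snd ST.id.fst.snd)
        refine h5.congr fun e _ _ _ => ?_
        constructor
        · rintro ⟨h6, w, _, ⟨n, hn⟩, h7⟩
          rw [Tr.pr.injEq] at hn
          refine ⟨n, ?_⟩
          rw [h6, hn.1, h7, hn.2]
        · rintro ⟨n, rfl⟩
          exact ⟨rfl, s n, kg_D (hsY n).1, ⟨n, rfl⟩, rfl⟩
    obtain ⟨r, hr, hrn⟩ := hCCL F (fun n => (s n).snd) hsq' (fun n => (hsY n).2.2.2.1)
      (fun n => (hLn n).2.2)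
    refine ⟨r, ⟨hPD hr, hr, Or.inr ?_⟩, ?_⟩
    · rintro n _ ⟨m, rfl⟩
      obtain ⟨y, hy, hd⟩ := hDn m
      exact ⟨y, hy, Dv_mono hPRO ⟨hr, (hLn m).1, hrn (m + 1)⟩ hd⟩
    · have h6 := hrn 0
      rw [hs0] at h6
      exact h6

end

/-- Packet SV2. -/
theorem thm (hCCL : G_CCL) (hKSM : G_KSM) (hDCH : G_DCH) (hPIM : G_PIM) (hPBD : G_PBD)
    (hTRE : G_TRE) (hPRO : G_PRO) : G_SV2 := by
  intro F G hG a ha hsq
  have hM : SOM F.γ F.M F.M := F.g.m1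
  obtain ⟨c, ⟨hcD, _, _⟩, hev⟩ := hsq
  have hX : dec c ∈ F.M := ⟨c, kg_D hcD, rfl⟩
  have hPD : F.P F.κ ⊆ D (Iio F.κ) := (hPBD F).2.1 F.κ
  have hDO : F.DO (E F (dec c)) :=
    { inM := E_mem hPIM hPBD hTRE hX
      sub := fun p hp => hp.2.1
      dense := fun p hp => E_dense hPIM hPBD hTRE hPRO hDCH hCCL hX p hp
      opn := by
        rintro q ⟨_, hq, hq'⟩ r hr hrq
        have hL : LL F r q := ⟨hr, hq, hrq⟩
        refine ⟨hPD hr, hr, ?_⟩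
        rcases hq' with ⟨n, hn, hnn, hq'⟩ | hq'
        · exact Or.inl ⟨n, hn, hnn, fun s hs hsr => hq' s hs (LL_trans hPRO hsr hL)⟩
        · refine Or.inr fun n hn hnn => ?_
          obtain ⟨y, hy, hd⟩ := hq' n hn hnn
          exact ⟨y, hy, Dv_mono hPRO hL hd⟩ }
  obtain ⟨p, hpG, hpE⟩ := hG.gen _ hDO
  have hval : ∀ z p', p' ∈ G → Dv F (dec c) z p' → z ∈ sq a := by
    rintro z p' hp' ⟨u, _, hu, hzu⟩
    rw [hev]
    exact ⟨u, hG.up p' hp' u hu.2.1 hu.2.2, hzu⟩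
  -- the values of `a` are bounded
  have hbd : ∃ d < F.κ, sq a ⊆ D (Iio d) := by
    have h0 : (Tr.pr (.nat 0) (a 0) : T) ∈ sq a := ⟨0, rfl⟩
    rw [hev] at h0
    obtain ⟨u, hu, hz⟩ := h0
    obtain ⟨b, φ, v, hc, _, _, _⟩ := hz
    refine ⟨b, ?_, ?_⟩
    · rw [hc] at hcD
      exact ord_mem.1 (pr_mem.1 hcD).1
    · intro z hz
      rw [hev] at hz
      obtain ⟨u', _, hz'⟩ := hz
      obtain ⟨b', φ', v', hc', _, hx, _⟩ := hz'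
      rw [hc, Tr.pr.injEq, Tr.ord.injEq] at hc'
      rw [hc'.1]
      exact (pr_mem.1 hx).1
  rw [(hKSM F.w F.κ F.γ F.g).2.1]
  refine ⟨?_, hbd⟩
  -- `sq a` is in the ground model
  have hdec : ∀ n : ℕ, Dv F (dec c) (.pr (.nat n) (a n)) p := by
    intro n
    rcases hpE.2.2 with ⟨m, hm, ⟨m', hmm⟩, hno⟩ | hyes
    · exfalso
      subst hmm
      have h1 : (Tr.pr (.nat m') (a m') : T) ∈ sq a := ⟨m', rfl⟩
      rw [hev] at h1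
      obtain ⟨u, hu, hz⟩ := h1
      obtain ⟨r, hr, hrp, hru⟩ := hG.dir p hpG u hu
      exact hno r (kg_D (hPD (hG.sub hr))) ⟨hG.sub hr, hG.sub hpG, hrp⟩ (a m') (kg_D (ha m'))
        ⟨u, kg_D (hPD (hG.sub hu)), ⟨hG.sub hr, hG.sub hu, hru⟩, hz⟩
    · obtain ⟨y, _, hd⟩ := hyes (.nat n) (nat_mem _ _) ⟨n, rfl⟩
      obtain ⟨n', hn'⟩ := hval _ p hpG hd
      rw [Tr.pr.injEq, Tr.nat.injEq] at hn'
      obtain ⟨rfl, rfl⟩ := hn'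
      exact hd
  obtain ⟨d, hd, hsub⟩ := hbd
  show sq a ∈ F.M
  refine SOM.of_SD (k := F.γ) (S := F.M) (d := d) (hd.trans F.g.kg) hsub ?_
  refine ((sd_Dv hPIM hPBD hX).sub (ST.id.pr (ST.const (kg_D (hPD (hG.sub hpG)))))).congr
    fun e _ _ _ => ?_
  constructor
  · exact fun h => hval e p hpG h
  · rintro ⟨n, rfl⟩
    exact hdec n

end Pool.Agent.Helper17.OD.PkSV2
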