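import Pool.Agent.Helper17.OD.GoalsCV

/-!
# Packet WFR of the project OD: the direct limit relation has minimal elements
-/

namespace Pool.Agent.Helper17.OD.PkWFR

open Set

/-! ### Trees -/

theorem leaves_map (π : O → O) (t : T) : (t.map π).leaves = π '' t.leaves := by
  induction t with
  | nat n => simp [Tr.map, Tr.leaves]
  | ord a => simp [Tr.map, Tr.leaves]
  | pr s t hs ht => simp only [Tr.map, Tr.leaves, hs, ht, image_union]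

theorem map_D {π : O → O} {β τ : O} (h : ∀ x < β, π x < τ) {t : T} (ht : t ∈ D (Iio β)) :
    t.map π ∈ D (Iio τ) := by
  show (t.map π).leaves ⊆ Iio τ
  rw [leaves_map]
  rintro _ ⟨x, hx, rfl⟩
  exact h x (ht hx)

theorem ofCode_D (c : Code) (A : Set O) : (Tr.ofCode c : T) ∈ D A := by
  show (Tr.map Empty.elim c : T).leaves ⊆ A
  induction c with
  | nat n => simp [Tr.map, Tr.leaves]
  | ord a => exact a.elim
  | pr s t hs ht => simp only [Tr.map, Tr.leaves, union_subset_iff]; exact ⟨hs, ht⟩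

theorem ord_of_isOrd {t : T} (h : t.IsOrd) : ∃ a, t = .ord a := by
  cases t with
  | nat n => exact h.elim
  | ord a => exact ⟨a, rfl⟩
  | pr s t => exact h.elim

theorem mem_gr {A : Set T} {g : T → T} {x y : T} : Tr.pr x y ∈ gr A g ↔ x ∈ A ∧ y = g x := by
  constructor
  · rintro ⟨z, hz, h⟩
    rw [Tr.pr.injEq] at h
    obtain ⟨rfl, rfl⟩ := h
    exact ⟨hz, rfl⟩
  · rintro ⟨h1, rfl⟩
    exact ⟨x, h1, rfl⟩

/-! ### The order of mice -/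

/-- The order of mice without levels. -/
def mle' (M M' : T) : Prop := ¬ M'.fst.llt M.fst ∧
  (M.snd.fst.fst.lt M'.snd.fst.fst ∨
    (M.snd.fst.fst = M'.snd.fst.fst ∧ ¬ M'.snd.fst.snd.lt M.snd.fst.snd)) ∧
  ¬ M'.snd.snd.fst.llt M.snd.snd.fst

theorem mle_iff (a a' d d' : O) (φ φ' u u' p p' : T) :
    mle (mouse a φ u d p) (mouse a' φ' u' d' p') ↔
      mle' (mouse a φ u d p) (mouse a' φ' u' d' p') := by
  simp only [mle, mle', mouse, mA, mD, mQ, lev, Tr.fst, Tr.snd, Tr.llt, not_lt]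

theorem mle_trans (hLTO : G_LTO.{2}) {M M' M'' : T} (h : mle M M') (h' : mle M' M'') :
    mle M M'' := by
  obtain ⟨_, htr, htri⟩ := hLTO O
  obtain ⟨h1, h2, h3⟩ := h
  obtain ⟨h4, h5, h6⟩ := h'
  refine ⟨h1.trans h4, ?_, h3.trans h6⟩
  rcases h2 with h2 | ⟨h2, h2'⟩
  · rcases h5 with h5 | ⟨h5, h5'⟩
    · exact Or.inl (htr _ _ _ h2 h5)
    · rw [← h5]
      exact Or.inl h2
  · rcases h5 with h5 | ⟨h5, h5'⟩
    · rw [h2]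
      exact Or.inl h5
    · refine Or.inr ⟨h2.trans h5, fun hlt => ?_⟩
      rcases htri (mQ M').snd (mQ M).snd with h7 | h7 | h7
      · exact h2' h7
      · rw [h7] at h5'
        exact h5' hlt
      · exact h5' (htr _ _ _ hlt h7)

/-! ### Parallel derivations -/

theorem PJ_dom {m m' : T} (h1 : mD m ≤ mA m) (h2 : mD m ≤ mA m') (h3 : mP m ∈ D (Iio (mA m)))
    (h4 : mP m' ∈ D (Iio (mA m'))) {t t' : T} (h : PJ m m' t t') :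
    t ∈ D (Iio (mA m)) ∧ t' ∈ D (Iio (mA m')) := by
  induction h with
  | nat n => exact ⟨nat_mem _ _, nat_mem _ _⟩
  | low hx => exact ⟨ord_mem.2 (hx.trans_le h1), ord_mem.2 (hx.trans_le h2)⟩
  | par => exact ⟨h3, h4⟩
  | pr _ _ ih1 ih2 => exact ⟨pr_mem.2 ⟨ih1.1, ih2.1⟩, pr_mem.2 ⟨ih1.2, ih2.2⟩⟩
  | fst _ ih => exact ⟨fst_mem ih.1, fst_mem ih.2⟩
  | snd _ ih => exact ⟨snd_mem ih.1, snd_mem ih.2⟩
  | inner _ hb hb' _ _ _ hw hw' _ _ =>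
    exact ⟨D_mono (Iio_subset_Iio hb.le) hw.1, D_mono (Iio_subset_Iio hb'.le) hw'.1⟩
  | top _ _ _ _ _ _ _ hw hw' _ => exact ⟨hw.1, hw'.1⟩

/-- One step down in the direct limit, with increasing indices. -/
theorem tsys_step (hLTO : G_LTO.{2}) {I : Set T} {mt : T → T} (hT : TSys I mt) {Y : Set T}
    (hY : ∀ y ∈ Y, ∃ z ∈ Y, Tr.pr z y ∈ Rl I mt) {M0 M : T} {x0 x : O} (_hM0 : M0 ∈ I)
    (hM : M ∈ I) (hy : Tr.pr M0 (.ord x0) ∈ Y) (hle : mle M0 M)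
    (hPJ : PJ (mt M0) (mt M) (.ord x0) (.ord x)) :
    ∃ M' ∈ I, ∃ x' y' : O, ∃ M1 ∈ I, ∃ x1 : O, Tr.pr M1 (.ord x1) ∈ Y ∧ mle M1 M' ∧
      PJ (mt M1) (mt M') (.ord x1) (.ord x') ∧ mle M M' ∧
      PJ (mt M) (mt M') (.ord x) (.ord y') ∧ x' < y' := by
  obtain ⟨z, hz, N1, hN1, N0, hN0, a1, a0, ha1, ha0, heq, N2, hN2, hl1, hl0, b1, b0, hp1, hp0,
    hlt⟩ := hY _ hy
  rw [Tr.pr.injEq, Tr.pr.injEq, Tr.ord.injEq] at heq
  obtain ⟨rfl, rfl, rfl⟩ := heq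
  obtain ⟨N3, hN3, hl2, hl3⟩ := hT.dir N2 hN2 M hM
  have i23 := hT.im N2 hN2 N3 hN3 hl2
  obtain ⟨t1, ht1⟩ := i23.tot _ ((hT.im _ hN1 N2 hN2 hl1).dom _ _ hp1).2
  obtain ⟨c1, rfl⟩ := ord_of_isOrd (i23.ord _ _ ht1 trivial)
  obtain ⟨t0, ht0⟩ := i23.tot _ ((hT.im _ hN0 N2 hN2 hl0).dom _ _ hp0).2
  obtain ⟨c0, rfl⟩ := ord_of_isOrd (i23.ord _ _ ht0 trivial)
  have hc : c1 < c0 := i23.mono _ _ _ _ ht1 ht0 hlt
  have i3 := hT.im M hM N3 hN3 hl3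
  obtain ⟨t2, ht2⟩ := i3.tot _ ((hT.im _ hN0 M hM hle).dom _ _ hPJ).2
  obtain ⟨y', rfl⟩ := ord_of_isOrd (i3.ord _ _ ht2 trivial)
  have h1 := hT.comp _ hN0 _ hN2 _ hN3 hl0 hl2 _ _ _ hp0 ht0
  have h2 := hT.comp _ hN0 _ hM _ hN3 hle hl3 _ _ _ hPJ ht2
  have h3 := (hT.im _ hN0 _ hN3 (mle_trans hLTO hl0 hl2)).fn _ _ _ h1 h2
  rw [Tr.ord.injEq] at h3
  subst h3
  exact ⟨N3, hN3, c1, c0, N1, hN1, a1, hz, mle_trans hLTO hl1 hl2,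
    hT.comp _ hN1 _ hN2 _ hN3 hl1 hl2 _ _ _ hp1 ht1, hl3, ht2, hc⟩

/-! ### Definability -/

section
variable {k : O} {S S' : Set (Set T)}

theorem sd_mle' (hTRE : G_TRE) [hS : SOM k S S'] : SD k S S' (fun e _ => mle' e.fst e.snd) := by
  have hlt : SD k S S' (fun e _ => e.fst.lt e.snd) := (hTRE k S S' hS).2.1
  refine SD.and (SD.llt ST.id.snd.fst ST.id.fst.fst).not (SD.and (SD.or ?_ (SD.and ?_ ?_)) ?_)
  · exact SD.app2 hlt ST.id.fst.snd.fst.fst ST.id.snd.snd.fst.fst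
  · exact SD.eq ST.id.fst.snd.fst.fst ST.id.snd.snd.fst.fst
  · exact (SD.app2 hlt ST.id.snd.snd.fst.snd ST.id.fst.snd.fst.snd).not
  · exact (SD.llt ST.id.snd.snd.snd.fst ST.id.fst.snd.snd.fst).not

theorem sd_Qr (hTRD : G_TRD) (hQRT : G_QRT) [hS : SOM k S S'] :
    SD k S S' (fun e _ => Qr e.fst e.snd.fst e.snd.snd.fst e.snd.snd.snd) :=
  (hTRD k S S' hS).2.2 _ (hQRT.1 (fun e => e.fst) (fun e => e.snd.fst) (fun e => e.snd.snd.fst)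
    (fun e => e.snd.snd.snd) ⟨.pr (.nat 0) (.nat 0), fun _ => rfl⟩
    ⟨.pr (.nat 0) (.pr (.nat 1) (.nat 0)), fun _ => rfl⟩
    ⟨.pr (.nat 0) (.pr (.nat 1) (.pr (.nat 1) (.nat 0))), fun _ => rfl⟩
    ⟨.pr (.nat 1) (.pr (.nat 1) (.pr (.nat 1) (.nat 0))), fun _ => rfl⟩)

theorem sd_PJ (hTRD : G_TRD) (hPJT : G_PJT) [hS : SOM k S S'] :
    SD k S S' (fun e _ => PJ e.fst e.snd.fst e.snd.snd.fst e.snd.snd.snd) :=
  (hTRD k S S' hS).2.2 _ (hPJT (fun e => e.fst) (fun e => e.snd.fst) (fun e => e.snd.snd.fst)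
    (fun e => e.snd.snd.snd) ⟨.pr (.nat 0) (.nat 0), fun _ => rfl⟩
    ⟨.pr (.nat 0) (.pr (.nat 1) (.nat 0)), fun _ => rfl⟩
    ⟨.pr (.nat 0) (.pr (.nat 1) (.pr (.nat 1) (.nat 0))), fun _ => rfl⟩
    ⟨.pr (.nat 1) (.pr (.nat 1) (.pr (.nat 1) (.nat 0))), fun _ => rfl⟩)

end

/-- The images of the elements of `Y`. -/
def PZ (k : O) (I Y : Set T) (mt : T → T) (z : T) : Prop :=
  z = .pr z.fst z.snd ∧ z.fst ∈ I ∧ z.snd.IsOrd ∧ ∃ y ∈ D (Iio k), y ∈ Y ∧ y.fst ∈ I ∧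
    mle' y.fst z.fst ∧ ∃ a ∈ D (Iio k), ∃ b ∈ D (Iio k), Tr.pr y.fst a ∈ gr I mt ∧
      Tr.pr z.fst b ∈ gr I mt ∧ PJ a b y.snd z.snd

/-- The descending relation. -/
def PR (k : O) (I : Set T) (mt : T → T) (z : T) : Prop :=
  z = .pr z.fst z.snd ∧ z.fst.fst ∈ I ∧ z.snd.fst ∈ I ∧ mle' z.snd.fst z.fst.fst ∧
    ∃ a ∈ D (Iio k), ∃ b ∈ D (Iio k), Tr.pr z.snd.fst a ∈ gr I mt ∧
      Tr.pr z.fst.fst b ∈ gr I mt ∧ Qr a b z.snd.snd z.fst.snd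

section
variable {k : O} {S S' : Set (Set T)}

theorem sd_PZ (hTRE : G_TRE) (hTRD : G_TRD) (hPJT : G_PJT) [hS : SOM k S S'] {I Y : Set T}
    {mt : T → T} (hI : I ∈ S') (hY : Y ∈ S') (hg : gr I mt ∈ S') :
    SD k S S' (fun e _ => PZ k I Y mt e) := by
  refine (SD.eq ST.id (ST.id.fst.pr ST.id.snd)).and ((SD.mem ST.id.fst (SV.par hI)).and
    ((SD.isOrd ST.id.snd).and ?_))
  refine SD.exT (P := fun z y _ => y ∈ Y ∧ y.fst ∈ I ∧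
    mle' y.fst z.fst ∧ ∃ a ∈ D (Iio k), ∃ b ∈ D (Iio k), Tr.pr y.fst a ∈ gr I mt ∧
      Tr.pr z.fst b ∈ gr I mt ∧ PJ a b y.snd z.snd) ?_
  refine (SD.mem ST.id.fst (SV.par hY)).and ((SD.mem ST.id.fst.fst (SV.par hI)).and
    ((SD.app2 (sd_mle' hTRE) ST.id.fst.fst ST.id.snd.fst).and ?_))
  refine SD.exT (P := fun e a _ => ∃ b ∈ D (Iio k), Tr.pr e.fst.fst a ∈ gr I mt ∧
      Tr.pr e.snd.fst b ∈ gr I mt ∧ PJ a b e.fst.snd e.snd.snd) ?_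
  refine SD.exT (P := fun e b _ => Tr.pr e.snd.fst.fst e.fst ∈ gr I mt ∧
      Tr.pr e.snd.snd.fst b ∈ gr I mt ∧ PJ e.fst b e.snd.fst.snd e.snd.snd.snd) ?_
  refine (SD.mem (ST.id.snd.snd.fst.fst.pr ST.id.snd.fst) (SV.par hg)).and
    ((SD.mem (ST.id.snd.snd.snd.fst.pr ST.id.fst) (SV.par hg)).and ?_)
  exact SD.app4 (sd_PJ hTRD hPJT) ST.id.snd.fst ST.id.fst ST.id.snd.snd.fst.snd
    ST.id.snd.snd.snd.snd

theorem sd_PR (hTRE : G_TRE) (hTRD : G_TRD) (hQRT : G_QRT) [hS : SOM k S S'] {I : Set T}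
    {mt : T → T} (hI : I ∈ S') (hg : gr I mt ∈ S') : SD k S S' (fun e _ => PR k I mt e) := by
  refine (SD.eq ST.id (ST.id.fst.pr ST.id.snd)).and ((SD.mem ST.id.fst.fst (SV.par hI)).and
    ((SD.mem ST.id.snd.fst (SV.par hI)).and
      ((SD.app2 (sd_mle' hTRE) ST.id.snd.fst ST.id.fst.fst).and ?_)))
  refine SD.exT (P := fun e a _ => ∃ b ∈ D (Iio k), Tr.pr e.snd.fst a ∈ gr I mt ∧
      Tr.pr e.fst.fst b ∈ gr I mt ∧ Qr a b e.snd.snd e.fst.snd) ?_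
  refine SD.exT (P := fun e b _ => Tr.pr e.snd.snd.fst e.fst ∈ gr I mt ∧
      Tr.pr e.snd.fst.fst b ∈ gr I mt ∧ Qr e.fst b e.snd.snd.snd e.snd.fst.snd) ?_
  refine (SD.mem (ST.id.snd.snd.snd.fst.pr ST.id.snd.fst) (SV.par hg)).and
    ((SD.mem (ST.id.snd.snd.fst.fst.pr ST.id.fst) (SV.par hg)).and ?_)
  exact SD.app4 (sd_Qr hTRD hQRT) ST.id.snd.fst ST.id.fst ST.id.snd.snd.snd.snd
    ST.id.snd.snd.fst.snd

end

/-- The second components of a sequence. -/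
theorem sq_snd {k : O} {S S' : Set (Set T)} [hS : SOM k S S'] {s : ℕ → T} (hs : sq s ∈ S')
    {d : O} (hd : d < k) (hsd : ∀ n, s n ∈ D (Iio d)) : sq (fun n => (s n).snd) ∈ S' := by
  refine SOM.of_SD (S := S) (d := d) hd ?_ ?_
  · rintro z ⟨n, rfl⟩
    exact pr_mem.2 ⟨nat_mem _ _, snd_mem (hsd n)⟩
  · have h5 : SD k S S' (fun e _ => e = .pr e.fst e.snd ∧ ∃ w ∈ D (Iio k),
        Tr.pr e.fst w ∈ sq s ∧ e.snd = w.snd) := by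
      refine (SD.eq ST.id (ST.id.fst.pr ST.id.snd)).and ?_
      refine SD.exT (P := fun e w _ => Tr.pr e.fst w ∈ sq s ∧ e.snd = w.snd) ?_
      exact (SD.mem (ST.id.snd.fst.pr ST.id.fst) (SV.par hs)).and
        (SD.eq ST.id.snd.snd ST.id.fst.snd)
    refine h5.congr fun e _ _ _ => ?_
    constructor
    · rintro ⟨h6, w, _, ⟨n, hn⟩, h7⟩
      rw [Tr.pr.injEq] at hn
      refine ⟨n, ?_⟩
      rw [h6, hn.1, h7, hn.2]
    · rintro ⟨n, rfl⟩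
      exact ⟨rfl, s n, D_mono (Iio_subset_Iio hd.le) (hsd n), ⟨n, rfl⟩, rfl⟩

/-- Packet WFR. -/
theorem thm (hDCH : G_DCH) (hLST : G_LST) (hQRT : G_QRT) (hPJT : G_PJT) (hTRD : G_TRD)
    (hTRE : G_TRE) (hLTO : G_LTO.{2}) : G_WFR := by
  intro k w τ β S S' c val π I p₀ d₀ f m hCov hMin hVD hvS hHD hSys hClp hpj hT hgI hRl Y hYS
    hYne
  by_contra hcon
  have hY : ∀ y ∈ Y, ∃ z ∈ Y, Tr.pr z y ∈ Rl I (fun M => (m M).map π) := by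
    intro y hy
    by_contra hno
    exact hcon ⟨y, hy, fun z hz h => hno ⟨z, hz, h⟩⟩
  have hSO : SOM k S S := hCov.som.self
  have hsub : S' ⊆ S := hCov.som.sub
  set mt : T → T := fun M => (m M).map π with hmt
  -- bounds
  have hmD : ∀ M ∈ I, m M ∈ D (Iio β) := by
    intro M hM
    obtain ⟨a, φ, u, d, p, h1, _, _, h4, h5, h6, h7, _⟩ := hClp.ms M hM
    have haβ : D (Iio a) ⊆ D (Iio β) := D_mono (Iio_subset_Iio h7.le)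
    rw [h1]
    exact pr_mem.2 ⟨ord_mem.2 h7, pr_mem.2 ⟨pr_mem.2 ⟨ofCode_D _ _, haβ h5⟩,
      pr_mem.2 ⟨ord_mem.2 (h4.trans_lt h7), haβ h6⟩⟩⟩
  have hmtD : ∀ M ∈ I, mt M ∈ D (Iio τ) := fun M hM => map_D hHD.lt (hmD M hM)
  have hτk : D (Iio τ) ⊆ D (Iio k) := D_mono (Iio_subset_Iio hMin.tk.le)
  have hwk : D (Iio w) ⊆ D (Iio k) := D_mono (Iio_subset_Iio hCov.wk.le)
  obtain ⟨dg, hdg, hgd⟩ := hCov.som.bdd _ (hsub hgI)
  have hID : I ⊆ D (Iio dg) := fun x hx => (pr_mem.1 (hgd (mem_gr.2 ⟨hx, rfl⟩))).1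
  have hIS : I ∈ S := by
    refine SOM.of_SD (S := S) hdg hID ?_
    refine (SD.exT (P := fun e y _ => Tr.pr e y ∈ gr I mt)
      (SD.mem (ST.id.snd.pr ST.id.fst) (SV.par (hsub hgI)))).congr fun e _ _ _ => ?_
    constructor
    · rintro ⟨y, _, h⟩
      exact (mem_gr.1 h).1
    · intro h
      exact ⟨mt e, hτk (hmtD e h), mem_gr.2 ⟨h, rfl⟩⟩
  have hmle : ∀ M ∈ I, ∀ M' ∈ I, (mle M M' ↔ mle' M M') := by
    intro M hM M' hM'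
    obtain ⟨a, φ, u, d, h1, _⟩ := hSys.mice M hM
    obtain ⟨a', φ', u', d', h1', _⟩ := hSys.mice M' hM'
    rw [h1, h1']
    exact mle_iff _ _ _ _ _ _ _ _ _ _
  have hmA : ∀ M ∈ I, mA (mt M) < τ := by
    intro M hM
    obtain ⟨a, φ, u, d, p, h1, _⟩ := hT.ms M hM
    have h2 := hmtD M hM
    rw [h1] at h2 ⊢
    exact ord_mem.1 (pr_mem.1 h2).1
  -- the sets
  have hd1 : max dg τ < k := max_lt hdg hMin.tk
  have hgd1 : D (Iio dg) ⊆ D (Iio (max dg τ)) := D_mono (Iio_subset_Iio (le_max_left _ _))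
  have hτd1 : ∀ {x : O}, x < τ → Tr.ord x ∈ D (Iio (max dg τ)) := fun h =>
    ord_mem.2 (h.trans_le (le_max_right _ _))
  have hZS : {z | z ∈ D (Iio (max dg τ)) ∧ PZ k I Y mt z} ∈ S :=
    SOM.sep (S := S) (sd_PZ hTRE hTRD hPJT hIS hYS (hsub hgI)) hd1
  have hRS : {z | z ∈ D (Iio (max dg τ)) ∧ PR k I mt z} ∈ S :=
    SOM.sep (S := S) (sd_PR hTRE hTRD hQRT hIS (hsub hgI)) hd1
  have hYk : Y ⊆ D (Iio k) := by
    obtain ⟨d, hd, h⟩ := hCov.som.bdd Y hYS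
    exact h.trans (D_mono (Iio_subset_Iio hd.le))
  have hYsh : ∀ y ∈ Y, ∃ M0 ∈ I, ∃ x0 : O, x0 < mA (mt M0) ∧ y = .pr M0 (.ord x0) := by
    intro y hy
    obtain ⟨z, hz, N1, hN1, N0, hN0, a1, a0, ha1, ha0, heq, _⟩ := hY y hy
    rw [Tr.pr.injEq] at heq
    exact ⟨N0, hN0, a0, ha0, heq.2⟩
  have hZin : ∀ M0 ∈ I, ∀ M ∈ I, ∀ x0 x : O, Tr.pr M0 (.ord x0) ∈ Y → mle M0 M →
      PJ (mt M0) (mt M) (.ord x0) (.ord x) →
      Tr.pr M (.ord x) ∈ {z | z ∈ D (Iio (max dg τ)) ∧ PZ k I Y mt z} := by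
    intro M0 hM0 M hM x0 x hy hle hPJ
    have hx := ord_mem.1 ((hT.im M0 hM0 M hM hle).dom _ _ hPJ).2
    refine ⟨pr_mem.2 ⟨hgd1 (hID hM), hτd1 (hx.trans (hmA M hM))⟩, rfl, hM, trivial,
      .pr M0 (.ord x0), hYk hy, hy, hM0, (hmle M0 hM0 M hM).1 hle, mt M0, hτk (hmtD M0 hM0),
      mt M, hτk (hmtD M hM), mem_gr.2 ⟨hM0, rfl⟩, mem_gr.2 ⟨hM, rfl⟩, hPJ⟩
  have hZout : ∀ z, z ∈ {z | z ∈ D (Iio (max dg τ)) ∧ PZ k I Y mt z} →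
      ∃ M ∈ I, ∃ x : O, z = .pr M (.ord x) ∧ ∃ M0 ∈ I, ∃ x0 : O, Tr.pr M0 (.ord x0) ∈ Y ∧
        mle M0 M ∧ PJ (mt M0) (mt M) (.ord x0) (.ord x) := by
    rintro z ⟨_, hz1, hzI, hzO, y, _, hyY, hyI, hle, a, _, b, _, ha, hb, hPJ⟩
    obtain ⟨x, hx⟩ := ord_of_isOrd hzO
    obtain ⟨M0, hM0, x0, _, rfl⟩ := hYsh y hyY
    rw [(mem_gr.1 ha).2, (mem_gr.1 hb).2, hx] at hPJ
    rw [hx] at hz1
    exact ⟨z.fst, hzI, x, hz1, M0, hM0, x0, hyY, (hmle _ hyI _ hzI).2 hle, hPJ⟩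
  obtain ⟨y0, hy0⟩ := hYne
  obtain ⟨M0, hM0, x0, hx0, hy0'⟩ := hYsh y0 hy0
  -- a start
  have hstart : ∃ z, z ∈ {z | z ∈ D (Iio (max dg τ)) ∧ PZ k I Y mt z} := by
    obtain ⟨N, hN, hl, _⟩ := hT.dir M0 hM0 M0 hM0
    obtain ⟨t, ht⟩ := (hT.im M0 hM0 N hN hl).tot (.ord x0) (ord_mem.2 hx0)
    obtain ⟨c, rfl⟩ := ord_of_isOrd ((hT.im M0 hM0 N hN hl).ord _ _ ht trivial)
    rw [hy0'] at hy0
    exact ⟨_, hZin M0 hM0 N hN x0 c hy0 hl ht⟩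
  obtain ⟨z0, hz0⟩ := hstart
  obtain ⟨s, _, hsZ, hsR, hsq⟩ := hDCH k S S hSO _ hRS _ hZS (by
    intro y hy
    obtain ⟨M, hM, x, rfl, N0, hN0, c0, hN0Y, hle0, hPJ0⟩ := hZout y hy
    obtain ⟨M', hM', x', y', M1, hM1, x1, h1Y, hle1, hPJ1, hle, hPJ, hlt⟩ :=
      tsys_step hLTO hT hY hN0 hM hN0Y hle0 hPJ0
    have hz' := hZin M1 hM1 M' hM' x1 x' h1Y hle1 hPJ1
    refine ⟨_, hz', pr_mem.2 ⟨hz'.1, hy.1⟩, rfl, hM', hM, (hmle M hM M' hM').1 hle, mt M,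
      hτk (hmtD M hM), mt M', hτk (hmtD M' hM'), mem_gr.2 ⟨hM, rfl⟩, mem_gr.2 ⟨hM', rfl⟩, ?_⟩
    exact ⟨trivial, trivial, .ord y', trivial, hPJ, hlt⟩) z0 hz0
  have hs : ∀ n, ∃ M ∈ I, ∃ x : O, s n = .pr M (.ord x) := by
    intro n
    obtain ⟨M, hM, x, h, _⟩ := hZout _ (hsZ n)
    exact ⟨M, hM, x, h⟩
  choose M hMI x hsx using hs
  have hR' : ∀ n, mle (M n) (M (n + 1)) ∧
      Qr (mt (M n)) (mt (M (n + 1))) (.ord (x n)) (.ord (x (n + 1))) := by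
    intro n
    obtain ⟨_, _, _, _, hle, a, _, b, _, ha, hb, hQ⟩ := hsR n
    rw [hsx n, hsx (n + 1)] at hle ha hb hQ
    have ha' := (mem_gr.1 ha).2
    have hb' := (mem_gr.1 hb).2
    rw [ha', hb'] at hQ
    exact ⟨(hmle _ (hMI n) _ (hMI (n + 1))).2 hle, hQ⟩
  -- the codes
  have hPsd : SD k S S (fun e _ => ∃ t ∈ D (Iio k), ∃ v ∈ D (Iio k), Tr.pr e.fst t ∈ sq s ∧
      Tr.pr t.fst v ∈ gr I mt ∧ Tr.pr e.snd v ∈ gr (D (Iio w)) val) := by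
    refine SD.exT (P := fun e t _ => ∃ v ∈ D (Iio k), Tr.pr e.fst t ∈ sq s ∧
      Tr.pr t.fst v ∈ gr I mt ∧ Tr.pr e.snd v ∈ gr (D (Iio w)) val) ?_
    refine SD.exT (P := fun e v _ => Tr.pr e.snd.fst e.fst ∈ sq s ∧
      Tr.pr e.fst.fst v ∈ gr I mt ∧ Tr.pr e.snd.snd v ∈ gr (D (Iio w)) val) ?_
    exact (SD.mem (ST.id.snd.snd.fst.pr ST.id.snd.fst) (SV.par hsq)).and
      ((SD.mem (ST.id.snd.fst.fst.pr ST.id.fst) (SV.par (hsub hgI))).and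
        (SD.mem (ST.id.snd.snd.snd.pr ST.id.fst) (SV.par (hsub hvS))))
  obtain ⟨g, hg1, _, hg3⟩ := hLST k S S hSO (fun i a => ∃ t ∈ D (Iio k), ∃ v ∈ D (Iio k),
    Tr.pr i t ∈ sq s ∧ Tr.pr t.fst v ∈ gr I mt ∧ Tr.pr a v ∈ gr (D (Iio w)) val) hPsd
  have hsk : ∀ n, s n ∈ D (Iio k) := fun n =>
    D_mono (Iio_subset_Iio hd1.le) (hsZ n).1
  have ha : ∀ n, g (.nat n) ∈ D (Iio w) ∧ val (g (.nat n)) = mt (M n) := by
    intro n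
    obtain ⟨a, haw, hav⟩ := hHD.tr1 _ (hmD _ (hMI n))
    obtain ⟨_, ⟨t, _, v, _, h1, h2, h3⟩, _⟩ := hg1 (.nat n) (nat_mem _ _)
      ⟨a, hwk haw, s n, hsk n, mt (M n), hτk (hmtD _ (hMI n)), ⟨n, rfl⟩,
        mem_gr.2 ⟨by rw [hsx n]; exact hMI n, by rw [hsx n]; rfl⟩, mem_gr.2 ⟨haw, hav.symm⟩⟩
    obtain ⟨n', hn'⟩ := h1
    rw [Tr.pr.injEq, Tr.nat.injEq] at hn'
    obtain ⟨rfl, rfl⟩ := hn'
    have h4 := mem_gr.1 h3
    have h5 := mem_gr.1 h2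
    refine ⟨h4.1, ?_⟩
    rw [← h4.2, h5.2, hsx n]
    rfl
  have hsqa : sq (fun n => g (.nat n)) ∈ S := by
    refine SOM.of_SD (S := S) (d := w) hCov.wk ?_ ?_
    · rintro z ⟨n, rfl⟩
      exact pr_mem.2 ⟨nat_mem _ _, (ha n).1⟩
    · have h1 : SD k S S (fun e _ => e = .pr e.fst e.snd ∧ (∃ n : ℕ, e.fst = .nat n) ∧
          g e.fst = e.snd) :=
        (SD.eq ST.id (ST.id.fst.pr ST.id.snd)).and
          ((SD.app1 (R := fun t => ∃ n : ℕ, t = .nat n) (hTRE k S S hSO).2.2.2.2.2.2.2.1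
            ST.id.fst).and hg3)
      refine h1.congr fun e _ _ _ => ?_
      constructor
      · rintro ⟨h2, ⟨n, hn⟩, h3⟩
        refine ⟨n, ?_⟩
        rw [h2, ← h3, hn]
      · rintro ⟨n, rfl⟩
        exact ⟨rfl, ⟨n, rfl⟩, rfl⟩
  have hconA := hCov.h2 (fun n => g (.nat n)) (fun n => (ha n).1) hsqa
  obtain ⟨⟨u, hu, hsu⟩, i, hi, hai⟩ := hCov.h3 (fun n => g (.nat n)) (fun n => (ha n).1) hconA
  -- the path
  have hUz : Uz S (fun j => val (g (.nat j))) 0 (x 0) := by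
    refine ⟨_, sq_snd (S := S) hsq hd1 (fun n => (hsZ n).1), ⟨0, ?_⟩, ?_⟩
    · simp only [hsx 0]
      rfl
    · rintro n y ⟨n', hn'⟩
      rw [Tr.pr.injEq, Tr.nat.injEq] at hn'
      obtain ⟨rfl, h2⟩ := hn'
      refine ⟨x (n + 1), ⟨n + 1, ?_⟩, ?_⟩
      · simp only [hsx (n + 1)]
        rfl
      · have h3 : (Tr.ord y : T) = .ord (x n) := by
          rw [h2]
          simp only [hsx n]
          rfl
        rw [h3]
        show Qr (val (g (.nat n))) (val (g (.nat (n + 1)))) _ _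
        rw [(ha n).2, (ha (n + 1)).2]
        exact (hR' n).2
  have htr2 : ∀ (b : T) (y : O), b ∈ D (Iio w) → val b = .ord y → ∃ x' < β, y = π x' := by
    intro b y hb hy
    obtain ⟨t, ht, htv⟩ := hHD.tr2 b hb
    rw [hy] at htv
    cases t with
    | nat n => simp [Tr.map] at htv
    | ord x' =>
      simp only [Tr.map, Tr.ord.injEq] at htv
      exact ⟨x', ord_mem.1 ht, htv⟩
    | pr t1 t2 => simp [Tr.map] at htv
  have claim : ∀ o : O, ∀ (n : ℕ) (b : T) (x' : O), b ∈ D (Iio w) → x' < β →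
      val b = .ord (π x') → Uz S (fun j => val (g (.nat j))) n (π x') → f (M n) x' = o →
      False := by
    intro o
    induction o using WellFoundedLT.induction with
    | ind o ih =>
      intro n b x' hb hx' hval hU hfo
      obtain ⟨y2, hval2, hU2, hQ⟩ := hVD.vnx (fun n => g (.nat n)) u i hu hi hai hsu n b _ hb
        hval hU
      have hb2 : Tr.pr (.nat 6) (.pr (.ord i) (.pr u (.pr (.nat n) b))) ∈ D (Iio w) :=
        pr_mem.2 ⟨nat_mem _ _, pr_mem.2 ⟨ord_mem.2 hi, pr_mem.2 ⟨hu, pr_mem.2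
          ⟨nat_mem _ _, hb⟩⟩⟩⟩
      obtain ⟨x2, hx2, rfl⟩ := htr2 _ _ hb2 hval2
      have hQ2 : Qr (mt (M n)) (mt (M (n + 1))) (.ord (π x')) (.ord (π x2)) := by
        have h := hQ
        simp only [(ha n).2, (ha (n + 1)).2] at h
        exact h
      have hQ' : Qr (m (M n)) (m (M (n + 1))) (.ord x') (.ord x2) :=
        (hHD.tdf (fun e => Qr e.fst e.snd.fst e.snd.snd.fst e.snd.snd.snd)
          (hQRT.1 (fun e => e.fst) (fun e => e.snd.fst) (fun e => e.snd.snd.fst)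
            (fun e => e.snd.snd.snd) ⟨.pr (.nat 0) (.nat 0), fun _ => rfl⟩
            ⟨.pr (.nat 0) (.pr (.nat 1) (.nat 0)), fun _ => rfl⟩
            ⟨.pr (.nat 0) (.pr (.nat 1) (.pr (.nat 1) (.nat 0))), fun _ => rfl⟩
            ⟨.pr (.nat 1) (.pr (.nat 1) (.pr (.nat 1) (.nat 0))), fun _ => rfl⟩)
          (.pr (m (M n)) (.pr (m (M (n + 1))) (.pr (.ord x') (.ord x2))))
          (pr_mem.2 ⟨hmD _ (hMI n), pr_mem.2 ⟨hmD _ (hMI (n + 1)), pr_mem.2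
            ⟨ord_mem.2 hx', ord_mem.2 hx2⟩⟩⟩)).2 hQ2
      obtain ⟨_, _, y, hyO, hPJ, hlt⟩ := hQ'
      obtain ⟨y', rfl⟩ := ord_of_isOrd hyO
      have h1 := hpj _ (hMI n) _ (hMI (n + 1)) (hR' n).1 _ _ hPJ
      simp only [Tr.map, Tr.ord.injEq] at h1
      have hlt' : x2 < y' := hlt
      have hms : ∀ N ∈ I, mD (m N) = mD N ∧ mD (m N) ≤ mA (m N) ∧
          mP (m N) ∈ D (Iio (mA (m N))) := by
        intro N hN
        obtain ⟨a, φ, u, d, p, h1, _, h3, h4, h5, h6, h7, _⟩ := hClp.ms N hN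
        rw [h1]
        refine ⟨?_, ?_, ?_⟩
        · rw [← h3]
          rfl
        · exact h4
        · exact h6
      have e1 := hms _ (hMI n)
      have e2 := hms _ (hMI (n + 1))
      have hdom := (PJ_dom e1.2.1 (by
        rw [e1.1]
        exact (hR' n).1.2.2.trans (e2.1 ▸ e2.2.1)) e1.2.2 e2.2.2 hPJ).2
      have hy'A : y' < mA (m (M (n + 1))) := ord_mem.1 hdom
      have hmono := hClp.mono _ (hMI (n + 1)) (show x2 ∈ Iio _ from hlt'.trans hy'A)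
        (show y' ∈ Iio _ from hy'A) hlt'
      rw [← h1, hfo] at hmono
      exact ih _ hmono (n + 1) _ x2 hb2 hx2 hval2 hU2 rfl
  obtain ⟨y, hval, hU⟩ := hVD.vst (fun n => g (.nat n)) u i hu hi hai hsu 0 ⟨_, hUz⟩
  have hb0 : Tr.pr (.nat 5) (.pr (.ord i) (.pr u (.nat 0))) ∈ D (Iio w) :=
    pr_mem.2 ⟨nat_mem _ _, pr_mem.2 ⟨ord_mem.2 hi, pr_mem.2 ⟨hu, nat_mem _ _⟩⟩⟩
  obtain ⟨x', hx', rfl⟩ := htr2 _ _ hb0 hval
  exact claim _ 0 _ x' hb0 hx' hval hU rfl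

end Pool.Agent.Helper17.OD.PkWFR
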